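import Pool.Agent.Y546.WQ.Stm2

/-! Project WG: `f` is palindromic if the exponent is known. -/

set_option autoImplicit false

namespace Pool.Agent.Y824.WQ

open Polynomial

section

variable {F : Type} [Field F]

lemma coprime_pow (a b : ℕ) : IsCoprime ((X - 1 : F[X]) ^ a) (X ^ b) := by
  refine IsCoprime.pow ⟨-1, 1, ?_⟩
  ring

lemma natDegree_X_sub_one_pow (n : ℕ) : ((X - 1 : F[X]) ^ n).natDegree = n := by
  rw [natDegree_pow, ← C_1, natDegree_X_sub_C, mul_one]

lemma natDegree_reflect_le' {m : ℕ} {f : F[X]} (hf : f.natDegree ≤ m) :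
    (f.reflect m).natDegree ≤ m :=
  natDegree_reflect_le.trans (max_le le_rfl hf)

lemma eval_reflect {m : ℕ} {f : F[X]} (hf : f.natDegree ≤ m) :
    (f.reflect m).eval 1 = f.eval 1 := by
  letI : Invertible (1 : F) := invertibleOne
  have h := eval₂_reflect_mul_pow (RingHom.id F) 1 m f hf
  rw [invOf_one, one_pow, mul_one, eval₂_id, eval₂_id] at h
  exact h

lemma coeff_zero_reflect (m : ℕ) (f : F[X]) : (f.reflect m).coeff 0 = f.coeff m := by
  rw [coeff_reflect, revAt_le (Nat.zero_le m), Nat.sub_zero]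

lemma pal {m k : ℕ} {f : F[X]} (hf : f.natDegree ≤ m) (h0 : f.coeff 0 ≠ 0) (hm : f.coeff m ≠ 0)
    (hk : k ≤ 2 * m) (hdiv : (X - 1) ^ (2 * m + 1) ∣ X ^ m * f - X ^ k * f.reflect m) :
    k = m ∧ f.reflect m = f := by
  have key : ∀ D : F[X], D.natDegree ≤ 2 * m → (X - 1) ^ (2 * m + 1) ∣ D → D = 0 := by
    intro D hD hdvd
    by_contra hne
    have h1 := natDegree_le_of_dvd hdvd hne
    rw [natDegree_X_sub_one_pow] at h1
    omega
  have hr := natDegree_reflect_le' hf
  rcases le_or_gt k m with hkm | hkm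
  · have e1 : X ^ m * f - X ^ k * f.reflect m = X ^ k * (X ^ (m - k) * f - f.reflect m) := by
      rw [mul_sub, ← mul_assoc, ← pow_add, Nat.add_sub_cancel' hkm]
    rw [e1] at hdiv
    have h2 := key _ (by
      refine (natDegree_sub_le _ _).trans (max_le ?_ (by omega))
      refine natDegree_mul_le.trans ?_
      rw [natDegree_X_pow]
      omega) ((coprime_pow _ _).dvd_of_dvd_mul_left hdiv)
    have hkm' : k = m := by
      by_contra hne
      have h3 := congrArg (fun q => coeff q 0) h2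
      simp only [coeff_sub, coeff_zero, coeff_zero_reflect] at h3
      rw [coeff_X_pow_mul', if_neg (by omega), zero_sub, neg_eq_zero] at h3
      exact hm h3
    subst hkm'
    rw [Nat.sub_self, pow_zero, one_mul, sub_eq_zero] at h2
    exact ⟨rfl, h2.symm⟩
  · exfalso
    have e1 : X ^ m * f - X ^ k * f.reflect m = X ^ m * (f - X ^ (k - m) * f.reflect m) := by
      rw [mul_sub, ← mul_assoc, ← pow_add, Nat.add_sub_cancel' hkm.le]
    rw [e1] at hdiv
    have h2 := key _ (by
      refine (natDegree_sub_le _ _).trans (max_le (by omega) ?_)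
      refine natDegree_mul_le.trans ?_
      rw [natDegree_X_pow]
      omega) ((coprime_pow _ _).dvd_of_dvd_mul_left hdiv)
    have h3 := congrArg (fun q => coeff q 0) h2
    simp only [coeff_sub, coeff_zero] at h3
    rw [coeff_X_pow_mul', if_neg (by omega), sub_zero] at h3
    exact h0 h3

end

theorem mainPOLA : Pool.Agent.Y546.WQ.S_CORE → Pool.Agent.Y546.WQ.S_POLA := by
  intro hcore p _ m k i f r hp hk hf h0 hm h1 hr hdvd hik hsum
  refine pal hf h0 hm hk ?_
  by_cases hz : X ^ m * f - X ^ k * f.reflect m = 0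
  · rw [hz]
    exact dvd_zero _
  obtain ⟨W, hW, hW1⟩ := exists_eq_pow_rootMultiplicity_mul_and_not_dvd _ hz 1
  set l := (X ^ m * f - X ^ k * f.reflect m).rootMultiplicity 1 with hl
  rw [C_1] at hW hW1
  have hW2 : W.eval 1 ≠ 0 := by
    intro h
    apply hW1
    rw [← C_1, dvd_iff_isRoot]
    exact h
  have hl1 : 1 ≤ l := by
    rw [hl, Nat.one_le_iff_ne_zero, ← Nat.pos_iff_ne_zero, rootMultiplicity_pos hz, IsRoot.def]
    simp [eval_reflect hf]
  by_cases hl2 : l ≤ 2 * m
  · exfalso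
    obtain ⟨h2, h3⟩ := hcore p (by omega) m k i l f W r hf h1 hr hdvd hW hW2 hl1 (by omega)
      (Or.inr hik)
    refine hsum l h2 ?_ h3
    rcases h2 with ⟨a, ha⟩
    omega
  · rw [hW]
    exact Dvd.dvd.mul_right (pow_dvd_pow _ (by omega)) _

end Pool.Agent.Y824.WQ
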